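import Mathlib
import Pool.Agent.H.MP_bd3523_gt.C

namespace Pool.Agent.Results.MP_bd3523_gt.Yes

open Set Filter Topology

def IsC1Curve (C : Set ℂ) : Prop :=
  (∃ c : Circle → ℂ, Continuous c ∧ Function.Injective c ∧ range c = C) ∧
    ∀ p ∈ C, ∃ (γ : ℝ → ℂ) (t : ℝ), ContDiffAt ℝ 1 γ t ∧ deriv γ t ≠ 0 ∧ γ t = p ∧
      map γ (𝓝 t) = 𝓝[C] p

theorem result : ∃ f : ℂ ≃ₜ ℂ, (∀ C, IsC1Curve C → IsC1Curve (f '' C)) ∧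
    (∀ C, IsC1Curve C → IsC1Curve (f.symm '' C)) ∧
    ¬{p : ℂ | ¬DifferentiableAt ℝ f p}.Countable := by
  have G : ∀ f : ℂ ≃ₜ ℂ, H.MP_bd3523_gt.Good f → ∀ C, IsC1Curve C → IsC1Curve (f '' C) := by
    rintro f hf C ⟨⟨c, c1, c2, c3⟩, h⟩
    refine ⟨⟨f ∘ c, f.continuous.comp c1, f.injective.comp c2, by rw [range_comp, c3]⟩, ?_⟩
    rintro _ ⟨p, hp, rfl⟩
    obtain ⟨γ, t, h1, h2, rfl, h4⟩ := h p hp
    exact H.MP_bd3523_gt.image_local f hf C γ t h1 h2 h4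
  obtain ⟨f, h1, h2, h3⟩ := H.MP_bd3523_gt.main
  exact ⟨f, G f h1, G f.symm h2, fun h => H.MP_bd3523_gt.K_unc (h.mono h3)⟩

end Pool.Agent.Results.MP_bd3523_gt.Yes
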